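import Pool.Agent.R937.PZ.Mot

/-!
# The Tate conjecture for singular varieties over finite fields generated and dominated by abelian
# varieties of dimension at most five, and by products of elliptic curves, abelian surfaces and
# non-ordinary threefolds

Over an algebraic closure of the field with `p` elements each abelian variety is isogenous to the
reduction of an abelian variety of CM type (Honda, Tate). So an abelian variety over the field with
`p ^ a` elements is modelled by `RedAV`: a finite product of CM types `(E i, Φ i)` with Weil numbers
`π i ∈ E i` that satisfy the formula of Shimura and Taniyama; its cohomology of degree `n`, with
coefficients in an algebraically closed field `Ω`, consists of the alternating `n`-forms on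
`Ω ⊗ H_1`, on which the Frobenius endomorphism acts by `π`.

We consider (`IsGoodAVP`) the abelian varieties `Y` of the following kinds:

* all abelian varieties of dimension at most five;
* the abelian varieties that are isogenous, over an algebraic closure, to a product of a supersingular
  abelian variety of any dimension and of abelian varieties of dimension at most three (any number, any
  multiplicity), such that any two factors of dimension three whose CM fields have the same Galois
  closure satisfy one of the following: their fields are Galois over `ℚ`; one of them is supersingular;
  they are isogenous; neither of them is ordinary and their `p`-ranks are not `{1, 2}`.

So `Y` may be any product of elliptic curves, of abelian surfaces, and of abelian threefolds that all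
have `p`-rank two, or that all have `p`-rank zero or one.

`Homology Ω V` are data of motivic homology `M X n j = H_n^M(X, ℚ(j)) = CH_j(X, n - 2 j) ⊗ ℚ` (higher
Chow groups) and of `ℓ`-adic homology `E X n j = H_n(X, ℚ_ℓ(j))` (coefficients extended to `Ω`) of
schemes `X : V` of finite type over finite fields, with the Frobenius and the regulator. Let `𝒢`
(`Generated`) be the smallest class of schemes that contains those with the homology groups of the
abelian varieties above, that is closed under direct summands of finite sums of twists of motives,
and that contains all of a closed subscheme `Z` of `X`, `X` and `X ∖ Z` if it contains two of them.
For example, it contains all products of curves of genus at most two and of open subsets of such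
curves, symmetric powers of such products, the varieties dominated by an abelian variety of dimension
at most five whose motive is a direct summand, and the open and the singular varieties that are
stratified by such varieties.

The class `Spread` contains the members of `𝒢` and the varieties `X` for which the maps `c_j` are known
to be surjective, with semisimple eigenvalue one of the Frobenius, for all `j`; it contains the open
subvarieties and the images under proper morphisms of members, the varieties that are the disjoint
union of a closed and an open member, and the varieties whose motives are direct summands of finite
sums of twists of motives of members. Its members can be singular, reducible and not proper; for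
instance, a member is each proper variety (with arbitrary singularities) onto which a product of curves
of genus at most two can be mapped, and each open part of it.

Image under a proper morphism (`IsImage`) means that the push-forward has the property that the
Frobenius has no eigenvalue one on its cokernel in the groups `H_(2 j)(X, ℚ_ℓ(j))`: this is true for
proper surjective morphisms by the theory of weights. Weights are also used in `HasWeights`: the
motivic homology groups `CH_j(X, n - 2 j)` are zero for `n < 2 j`, and the Frobenius has no eigenvalue
one on `H_n(X, ℚ_ℓ(j))` for `n < 2 j`.

**Theorem.** For all members `X` of the class `Spread` and all `j` the cycle class map
`c_j : CH_j(X) ⊗ Ω → H_(2 j)(X, ℚ_ℓ(j)) ⊗ Ω` maps onto the space of the Frobenius invariant elements, and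
the eigenvalue one of the Frobenius is semisimple (`IsOnto`).

The results of the starting files for this problem are about products of explicit coverings and
about products of powers from two Frobenius polynomials.

Properties of the theory of cycles that are used for the abelian varieties `Y` (`IsChowS`,
`IsMotivic`): Poincaré duality, the formal properties of correspondences, the nilpotence of
homologically trivial correspondences (Kimura), the operation of the Frobenius endomorphism on higher
Chow groups, the vanishing of the higher rational `K`-groups of a finite field (Quillen), and the
algebraicity of the classes in the system `AlgS` which is generated by Tate classes of degree two, by
reductions of split Weil classes on abelian fourfolds and sixfolds of CM type and by reductions of the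
Hodge classes of degree four on products of elliptic curves and abelian surfaces of CM type (theorems
of Tate, Markman and Ramón Marí). All Tate classes on all powers of `Y` are in `AlgS`
(`Pool.Agent.R937.PG.main`). The passage from the Tate conjecture to all degrees and to the class `𝒢` is
due to Soulé, Geisser, Kahn and Jannsen.
-/

set_option autoImplicit false

namespace Pool.Agent.Results.MP_40dc3c_ag.NonOrdinaryThreefolds

open Pool.Agent.W495.TA Pool.Agent.W495.FM Pool.Agent.R937.PG

/-- The cycle class maps `c_j` are surjective for all varieties in the class `Spread` of the schemes
generated by the abelian varieties of dimension at most five and by the products of elliptic curves,
abelian surfaces and non-ordinary threefolds, and of the schemes with surjective maps `c_j`. -/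
theorem result (p : ℕ) [Fact p.Prime] (ν : PadicAlgCl p ≃+* ℂ) (Ω : Type) [Field Ω]
    [IsAlgClosed Ω] [CharZero Ω] (V : Type) (T : Homology Ω V) (hT : IsHomology T)
    (hW : HasWeights T) (X : V)
    (hX : Spread T (fun X => Generated T (IsGoodAbelianP p ν T) X ∨ ∀ i, IsOnto T X i) X) (j : ℤ) :
    IsOnto T X j :=
  onto_spread_goodP hT hW hX j

end Pool.Agent.Results.MP_40dc3c_ag.NonOrdinaryThreefolds
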