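import Pool.Agent.Zk51.CM.Main

/-!
# The Tate conjecture for the products of singular varieties with all powers of a variety

Let `k` be a finitely generated field, `S` ANY variety over `k` (singular, reducible, not proper, ...), and
let `X` be a smooth projective variety over `k` with the sign property `C⁺` (the projector of
`H^*(X̄, ℚ_ℓ)` to the even part is algebraic). If `k` is finite then ALL smooth projective `X` have it
(Katz and Messing); in general it is known for curves, surfaces, abelian varieties, complete
intersections in projective spaces and all products of them. Let `b` be the total Betti number of `X`, let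
`ρ(n)` be the rank of the group of all cycles on `X^n` modulo numerical equivalence, and let

* `τ(n) = ∑_j dim H_{2j}(S × X^n, ℚ_ℓ(j))^{G_k}` be the number of the Tate classes of `S × X^n`;
* `α(n)` the number of the algebraic ones among them, the sum over all `j` of the dimensions of the
  images of the maps `c_j`, and `γ(n) = τ(n) - α(n)` the dimension of the sum of the cokernels of the
  `c_j`. So Q1 for `S × X^n` says that `γ(n) = 0`;
* `κ(n)`, a number or infinity, the dimension of the sum of the kernels of the maps
  `c_j : CH_j(S × X^n)_{ℚ_ℓ} → H_{2j}(S × X^n, ℚ_ℓ(j))^{G_k}`.

**Theorem.** No conjecture is assumed.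

(1) `γ(n) / ρ(n)` converges, for `n → ∞`, to a natural number `N(S)` or to infinity, and `N(S) = 0` if
and only if Q1 holds for all `S × X^n`. Also `α(n) / ρ(n)` converges to a natural number `N'(S)` or to
infinity, and `τ(n) / ρ(n)` converges to `N(S) + N'(S)`.

(2) If `N(S)` is finite then there are finitely many numerical motives `M_s`, direct summands of the
numerical motives of powers of `X`, with sum of the ranks `N(S)`, such that `γ(n)` is the dimension of
`⨁ Hom(M_s, h(X^n))` for all `n`; there are at most `N(S)` Tate classes on one `S × X^m` which
generate, under correspondences between the powers of `X` and together with the algebraic classes,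
all Tate classes on all `S × X^n`; and compositions of `N(S)` numerically trivial correspondences
between powers of `X` map Tate classes to algebraic classes.

(3) (Zero-one law.) If the numerical motive of each `X^n` is a direct summand of a sum of numerical
motives of varieties `Z` such that Q1 holds for `S × Z` then `N(S)` is `0` or infinity.

(4) (Dévissage.) `N(S) ≤ N(S')` if there is a map from `S'` to `S` which is onto on Tate classes (a proper
map `S' → S`, or the restriction to an open part `S` of `S'`), and
`N(S ∖ Z) ≤ N(S) ≤ N(Z) + N(S ∖ Z)` for a closed subvariety `Z` if the localisation sequences are exact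
on Tate classes. If `k` has characteristic zero then all this is true for all proper surjective
`S' → S`, all open `S ⊂ S'` and all closed `Z ⊂ S`, by the results of Jannsen (the weight zero
parts of the homology are semisimple as mixed realisations). So `N(S)` is bounded by the sum of
the numbers `N(S_i)` for smooth projective compactifications `S_i` of the strata of a stratification.
For finite `k` it is true for the generalised eigenspaces instead of the invariants; then `N(S) = 0`
says that Q1 holds for all `S × X^n` and that the eigenvalue `1` of the Frobenius is
semisimple.

(5) (One inequality.) If `γ(n) < ρ(n) / 2` for one `n ≥ 128 (m + 1)^2 b^(2 m + 6)` then Q1 holds for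
`S × X^m`.

(6) (Growth gap.) If Q1 fails for one `S × X^(2 m)` then there are at least
`b^(2 n) / (2 (n + 1)^(b^2))` Tate classes on `S × X^(2 n)` which are linearly independent modulo the algebraic
ones, for ALL `n ≥ 128 (m + 1)^2 b^(4 m + 12)`. Here `b^(2 n)` is the total Betti number of `X^(2 n)`.

(7) The same as in (1), (2) (without generators), (3), (5), (6) holds for the kernels and `κ(n)`, where
the limit is zero if and only if all `c_j` are injective for all `S × X^n`.

So the counterexamples to Q1 of this form are never isolated, also for singular `S`.

The setting. `Λ` is `ℚ_ℓ`, `C` is the category of the smooth projective varieties over `k` with the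
groups `CH^*(X × Y) ⊗ ℚ_ℓ` (all codimensions) as morphisms, `T = X`, which is self-dual, `tp T n = X^n`
and `tp (T ⊗ T^∨) n = X^(2 n)`, and `R` is the `ℓ`-adic cohomology with coefficients extended to an
algebraic closure of `ℚ_ℓ`. `IsPow` says that the endomorphisms of the unit object are the elements of
`ℚ_ℓ`, that `C⁺` holds for `X` and that the unit object is a direct summand of `T` (a closed point).
`CycleMaps` are the groups `⨁_j CH_j(S × Z)_{ℚ_ℓ}` and `⨁_j H_{2j}(S × Z, ℚ_ℓ(j))^{G_k}` for `Z` in `C`, with
the maps `c_j`. The hypotheses `IsCycleMaps` are standard facts: a correspondence between smooth
projective `Y` and `Z` acts on the groups of `S × Y` and `S × Z` (pull back to `S × Y × Z`, multiply with a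
class of the smooth variety `Y × Z`, push forward along a projective map), and the cycle class
maps are compatible with this action.

Idea of the proof. Kernels, images and cokernels of the cycle class maps are additive functors on `C`, to
which the law of the dimensions of the values of additive functors on the powers of an object
applies (`Pool.Agent.N64.AF`, helper64 and others). Nothing about the geometry of `S` is used.
-/

set_option autoImplicit false

namespace Pool.Agent.Results.MP_40dc3c_ag.ProductsWithPowers

open CategoryTheory MonoidalCategory
open Pool.Agent.Y112.SR Pool.Agent.Y112.KD Pool.Agent.N64.AF Pool.Agent.Zk51.CM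

universe v u w t x

/-- The cycle class maps of the products of arbitrary varieties with all powers of a smooth projective
variety. -/
theorem result {C : Type u} [Category.{v} C] [Preadditive C] [MonoidalCategory C]
    [MonoidalPreadditive C] [SymmetricCategory C] [RightRigidCategory C]
    {Λ : Type t} [Field Λ] [CharZero Λ] [Linear Λ C] [MonoidalLinear Λ C]
    {K : Type w} [Field K] [IsAlgClosed K] [Algebra Λ K] (R : SuperRealisation C K)
    (T : C) [ExactPairing T T] (h : IsPow Λ R T) :
    (∃ N : CycleMaps.{v, u, t, x} Λ C → ℕ∞, CycleMaps.Laws R T N) ∧
    ∀ D : CycleMaps.{v, u, t, x} Λ C, D.IsCycleMaps → D.Criterion R T ∧ D.GrowthGap R T :=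
  ⟨CycleMaps.laws h, fun _ hD => ⟨hD.criterion h, hD.gap h.real h.cplus (bt_pos h)⟩⟩

end Pool.Agent.Results.MP_40dc3c_ag.ProductsWithPowers
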